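import Mathlib

/-!
# The finite checks for star complements with two or three vertices
-/

namespace Pool.Agent.helper64.Star

theorem check2 (b1 b2 c1 c2 a l x1 x2 z1 z2 : ℝ)
    (hb1 : b1 = 0 ∨ b1 = 1) (hb2 : b2 = 0 ∨ b2 = 1)
    (hc1 : c1 = 0 ∨ c1 = 1) (hc2 : c2 = 0 ∨ c2 = 1)
    (ha : a = 0 ∨ a = 1) (hb : b1 + b2 ≠ 0) (hc : c1 + c2 ≠ 0)
    (hdet : l * l - 1 ≠ 0)
    (e1 : x2 + b1 - l * x1 = 0) (e2 : x1 + b2 - l * x2 = 0)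
    (e4 : b1 * x1 + b2 * x2 - l = 0) (e5 : c1 * x1 + c2 * x2 + a = 0)
    (f1 : z2 + c1 - l * z1 = 0) (f2 : z1 + c2 - l * z2 = 0)
    (f4 : c1 * z1 + c2 * z2 - l = 0) :
    x1 + x2 + 1 = 0 := by
  rcases hb1 with rfl | rfl <;> rcases hb2 with rfl | rfl <;> rcases hc1 with rfl | rfl <;>
  rcases hc2 with rfl | rfl <;> rcases ha with rfl | rfl <;>
  grind

theorem check3 (d b1 b2 b3 c1 c2 c3 a l x1 x2 x3 z1 z2 z3 : ℝ)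
    (hd : d = 0 ∨ d = 1) (hb1 : b1 = 0 ∨ b1 = 1) (hb2 : b2 = 0 ∨ b2 = 1) (hb3 : b3 = 0 ∨ b3 = 1)
    (hc1 : c1 = 0 ∨ c1 = 1) (hc2 : c2 = 0 ∨ c2 = 1) (hc3 : c3 = 0 ∨ c3 = 1)
    (ha : a = 0 ∨ a = 1) (hb : b1 + b2 + b3 ≠ 0) (hc : c1 + c2 + c3 ≠ 0)
    (hdet : -l^3 + 2 * l + 2 * d + l * d ≠ 0)
    (e1 : x2 + d * x3 + b1 - l * x1 = 0) (e2 : x1 + x3 + b2 - l * x2 = 0)
    (e3 : d * x1 + x2 + b3 - l * x3 = 0)
    (e4 : b1 * x1 + b2 * x2 + b3 * x3 - l = 0) (e5 : c1 * x1 + c2 * x2 + c3 * x3 + a = 0)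
    (f1 : z2 + d * z3 + c1 - l * z1 = 0) (f2 : z1 + z3 + c2 - l * z2 = 0)
    (f3 : d * z1 + z2 + c3 - l * z3 = 0)
    (f4 : c1 * z1 + c2 * z2 + c3 * z3 - l = 0) :
    x1 + x2 + x3 + 1 = 0 := by
  rcases hd with rfl | rfl <;> rcases hb1 with rfl | rfl <;> rcases hb2 with rfl | rfl <;>
  rcases hb3 with rfl | rfl <;> rcases hc1 with rfl | rfl <;> rcases hc2 with rfl | rfl <;>
  rcases hc3 with rfl | rfl <;> rcases ha with rfl | rfl <;>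
  grind

end Pool.Agent.helper64.Star
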