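import Mathlib

/-!
# Star sets and main vertices: definitions and first facts
-/

open Finset

namespace Pool.Agent.helper64.Star

section Defs

variable {V : Type} [Fintype V]

open Classical in
/-- The eigenspace of the adjacency matrix of `G` for the real number `μ`. -/
noncomputable def eig (G : SimpleGraph V) (μ : ℝ) : Submodule ℝ (V → ℝ) :=
  Module.End.eigenspace (Matrix.toLin' (G.adjMatrix ℝ)) μ

/-- `μ` is a main eigenvalue of `G`: it has an eigenvector whose entries do not sum to zero. -/
def IsMain (G : SimpleGraph V) (μ : ℝ) : Prop :=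
  ∃ x ∈ eig G μ, ∑ v, x v ≠ 0

open Classical in
/-- `X` is a star set of `G` for `μ`: the size of `X` is the multiplicity of `μ`, and `μ` is not an
eigenvalue of `G - X`. -/
def IsStarSet (G : SimpleGraph V) (μ : ℝ) (X : Finset V) : Prop :=
  X.card = Module.finrank ℝ (eig G μ) ∧ eig (G.induce {v | v ∉ X}) μ = ⊥

open Classical in
/-- The main vertices of a star set `X`: those `v ∈ X` for which `μ` is a main eigenvalue of the
subgraph induced on `v` and the complement of `X`. -/
noncomputable def mainVertices (G : SimpleGraph V) (μ : ℝ) (X : Finset V) : Finset V :=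
  X.filter fun v => IsMain (G.induce {u | u ∉ X ∨ u = v}) μ

open Classical in
/-- The largest number of main vertices of a star set of `G` for `μ`. -/
noncomputable def alephMax (G : SimpleGraph V) (μ : ℝ) : ℕ :=
  (univ.filter fun X : Finset V => IsStarSet G μ X).sup fun X => (mainVertices G μ X).card

end Defs

section Basic

variable {V : Type} [Fintype V] (G : SimpleGraph V) (μ : ℝ)

open Classical in
/-- The entries of the adjacency matrix. -/
noncomputable def adj (v w : V) : ℝ := if G.Adj v w then 1 else 0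

omit [Fintype V] in
theorem adj_comm (v w : V) : adj G v w = adj G w v := by
  unfold adj
  by_cases h : G.Adj v w
  · rw [if_pos h, if_pos h.symm]
  · rw [if_neg h, if_neg fun h' => h h'.symm]

omit [Fintype V] in
theorem adj_01 (v w : V) : adj G v w = 0 ∨ adj G v w = 1 := by
  unfold adj; split_ifs <;> simp

omit [Fintype V] in
theorem adj_self (v : V) : adj G v v = 0 := by simp [adj]

omit [Fintype V] in
theorem adj_of {v w : V} (h : G.Adj v w) : adj G v w = 1 := by simp [adj, h]

omit [Fintype V] in
theorem adj_of_not {v w : V} (h : ¬ G.Adj v w) : adj G v w = 0 := by simp [adj, h]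

omit [Fintype V] in
theorem adj_nonneg (v w : V) : 0 ≤ adj G v w := by
  rcases adj_01 G v w with h | h <;> simp [h]

/-- The vector `(A - μ) x`. -/
noncomputable def res (x : V → ℝ) (v : V) : ℝ := ∑ w, adj G v w * x w - μ * x v

theorem mem_eig {x : V → ℝ} : x ∈ eig G μ ↔ ∀ v, res G μ x v = 0 := by
  classical
  unfold eig
  rw [Module.End.mem_eigenspace_iff, funext_iff]
  refine forall_congr' fun v => ?_
  simp only [Matrix.toLin'_apply, Matrix.mulVec, dotProduct, SimpleGraph.adjMatrix_apply,
    Pi.smul_apply, smul_eq_mul, res, adj, sub_eq_zero]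

theorem res_add (x y : V → ℝ) (v : V) : res G μ (x + y) v = res G μ x v + res G μ y v := by
  simp only [res, Pi.add_apply, mul_add, Finset.sum_add_distrib]; ring

theorem res_smul (c : ℝ) (x : V → ℝ) (v : V) : res G μ (c • x) v = c * res G μ x v := by
  simp only [res, Pi.smul_apply, smul_eq_mul, mul_sub, Finset.mul_sum]
  congr 1
  · exact Finset.sum_congr rfl fun w _ => by ring
  · ring

theorem res_sub (x y : V → ℝ) (v : V) : res G μ (x - y) v = res G μ x v - res G μ y v := by
  simp only [res, Pi.sub_apply, mul_sub, Finset.sum_sub_distrib]; ring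

theorem res_zero (v : V) : res G μ 0 v = 0 := by simp [res]

/-- The matrix is symmetric. -/
theorem res_symm (x y : V → ℝ) : ∑ v, res G μ x v * y v = ∑ v, x v * res G μ y v := by
  simp only [res, sub_mul, mul_sub, Finset.sum_sub_distrib, Finset.sum_mul, Finset.mul_sum]
  congr 1
  · rw [Finset.sum_comm]
    refine Finset.sum_congr rfl fun v _ => Finset.sum_congr rfl fun w _ => ?_
    rw [adj_comm]; ring
  · exact Finset.sum_congr rfl fun v _ => by ring

/-- The principal submatrix of `A - μ` on `S` is nonsingular. -/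
def Nonsing (S : Finset V) : Prop :=
  ∀ x : V → ℝ, (∀ v, v ∉ S → x v = 0) → (∀ v ∈ S, res G μ x v = 0) → x = 0

end Basic

section Induced

variable {V : Type} [Fintype V] (G : SimpleGraph V) (μ : ℝ)

theorem res_induce (S : Set V) [Fintype S] (y : V → ℝ) (hy : ∀ v, v ∉ S → y v = 0) (v : S) :
    res (G.induce S) μ (fun u : S => y u) v = res G μ y v := by
  classical
  unfold res
  congr 1
  have h1 : ∑ w, adj G (v : V) w * y w = ∑ w ∈ univ.filter (fun w => w ∈ S), adj G (v : V) w * y w := by
    rw [Finset.sum_filter]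
    refine Finset.sum_congr rfl fun w _ => ?_
    by_cases hw : w ∈ S
    · simp [hw]
    · simp [hw, hy w hw]
  rw [h1, ← Finset.sum_subtype_eq_sum_filter]
  refine Finset.sum_bij (fun (w : S) _ => (⟨w, w.2⟩ : {w // w ∈ S})) ?_ ?_ ?_ ?_
  · intro a _; simp
  · intro a _ b _ h; simpa using h
  · intro b _; exact ⟨⟨b, b.2⟩, by simp, rfl⟩
  · intro a _
    simp [adj]

theorem isMain_induce (S : Set V) [Fintype S] (y : V → ℝ) (hy : ∀ v, v ∉ S → y v = 0)
    (h0 : ∀ v ∈ S, res G μ y v = 0) (hs : ∑ v, y v ≠ 0) : IsMain (G.induce S) μ := by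
  classical
  refine ⟨fun u : S => y u, (mem_eig _ _).2 fun v => ?_, ?_⟩
  · rw [res_induce G μ S y hy v]; exact h0 v v.2
  · intro h
    apply hs
    rw [← h]
    have h1 : ∑ w, y w = ∑ w ∈ univ.filter (fun w => w ∈ S), y w := by
      rw [Finset.sum_filter]
      refine Finset.sum_congr rfl fun w _ => ?_
      by_cases hw : w ∈ S
      · simp [hw]
      · simp [hw, hy w hw]
    rw [h1, ← Finset.sum_subtype_eq_sum_filter]
    symm
    refine Finset.sum_bij (fun (w : S) _ => (⟨w, w.2⟩ : {w // w ∈ S})) ?_ ?_ ?_ ?_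
    · intro a _; simp
    · intro a _ b _ h; simpa using h
    · intro b _; exact ⟨⟨b, b.2⟩, by simp, rfl⟩
    · intro a _; rfl

theorem eig_induce_eq_bot (S : Set V) [Fintype S] (T : Finset V) (hT : ∀ v, v ∈ T ↔ v ∈ S)
    (h : Nonsing G μ T) : eig (G.induce S) μ = ⊥ := by
  classical
  rw [Submodule.eq_bot_iff]
  intro x hx
  rw [mem_eig] at hx
  set y : V → ℝ := fun v => if hv : v ∈ S then x ⟨v, hv⟩ else 0 with hydef
  have hy : ∀ v, v ∉ S → y v = 0 := fun v hv => by simp [hydef, hv]
  have hxy : x = fun u : S => y u := by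
    funext u; simp [hydef]
  have h2 := h y (fun v hv => hy v (fun h' => hv ((hT v).2 h'))) (fun v hv => by
    have h3 := hx ⟨v, (hT v).1 hv⟩
    rw [hxy, res_induce G μ S y hy] at h3
    exact h3)
  rw [hxy, h2]; rfl

end Induced

section Dim

variable {V : Type} [Fintype V] (G : SimpleGraph V) (μ : ℝ)

theorem finrank_le (S : Finset V) (h : Nonsing G μ S) :
    Module.finrank ℝ (eig G μ) ≤ Fintype.card V - S.card := by
  classical
  let f : eig G μ →ₗ[ℝ] ({v // v ∉ S} → ℝ) :=
    { toFun := fun x v => (x : V → ℝ) v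
      map_add' := fun x y => rfl
      map_smul' := fun c x => rfl }
  have hf : Function.Injective f := by
    rw [injective_iff_map_eq_zero]
    intro x hx
    have h1 : (x : V → ℝ) = 0 := by
      refine h x (fun v hv => ?_) (fun v _ => (mem_eig G μ).1 x.2 v)
      exact congrFun hx ⟨v, hv⟩
    exact Subtype.ext h1
  have h2 := LinearMap.finrank_le_finrank_of_injective hf
  rw [Module.finrank_fintype_fun_eq_card] at h2
  refine h2.trans (le_of_eq ?_)
  rw [Fintype.card_subtype_compl]
  simp

theorem finrank_eq (X : Finset V) (S : Finset V) (hS : ∀ v, v ∈ S ↔ v ∉ X) (h : Nonsing G μ S)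
    (hX : ∀ w ∈ X, ∃ x ∈ eig G μ, x w = 1 ∧ ∀ z ∈ X, z ≠ w → x z = 0) :
    X.card = Module.finrank ℝ (eig G μ) := by
  classical
  refine le_antisymm ?_ ?_
  · choose! f hf using hX
    let g : X → eig G μ := fun w => ⟨f w, (hf w w.2).1⟩
    have hg : LinearIndependent ℝ g := by
      rw [Fintype.linearIndependent_iff]
      intro c hc i
      have h1 := congrArg (fun y : eig G μ => (y : V → ℝ) i) hc
      simp only [Submodule.coe_sum, Submodule.coe_smul, Finset.sum_apply, Pi.smul_apply,
        smul_eq_mul, Submodule.coe_zero, Pi.zero_apply, g] at h1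
      rw [Finset.sum_eq_single i] at h1
      · rw [(hf i i.2).2.1, mul_one] at h1; exact h1
      · intro b _ hb
        rw [(hf b b.2).2.2 i i.2 (fun h' => hb (Subtype.ext h'.symm)), mul_zero]
      · intro h'; exact absurd (Finset.mem_univ i) h'
    have h2 := hg.fintype_card_le_finrank
    simpa using h2
  · refine (finrank_le G μ S h).trans (le_of_eq ?_)
    have h1 : S = Xᶜ := by ext v; rw [hS, Finset.mem_compl]
    rw [h1, Finset.card_compl]
    have := Finset.card_le_univ X
    omega

open Classical in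
theorem isStarSet_of (X S : Finset V) (hS : ∀ v, v ∈ S ↔ v ∉ X) (h : Nonsing G μ S)
    (hX : ∀ w ∈ X, ∃ x ∈ eig G μ, x w = 1 ∧ ∀ z ∈ X, z ≠ w → x z = 0) : IsStarSet G μ X :=
  ⟨finrank_eq G μ X S hS h hX, @eig_induce_eq_bot V _ G μ _ _ S hS h⟩

open Classical in
theorem mem_mainVertices_of (X : Finset V) {v : V} (hv : v ∈ X) (y : V → ℝ)
    (hy : ∀ u ∈ X, u ≠ v → y u = 0) (h0 : ∀ u, res G μ y u = 0) (hs : ∑ u, y u ≠ 0) :
    v ∈ mainVertices G μ X := by
  unfold mainVertices
  rw [Finset.mem_filter]
  refine ⟨hv, @isMain_induce V _ G μ _ _ y (fun u hu => ?_) (fun u _ => h0 u) hs⟩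
  simp only [Set.mem_ofPred_eq, not_or, not_not] at hu
  exact hy u hu.1 hu.2

open Classical in
theorem alephMax_le : alephMax G μ ≤ Module.finrank ℝ (eig G μ) := by
  unfold alephMax
  refine Finset.sup_le fun X hX => ?_
  have h1 : IsStarSet G μ X := by simpa using hX
  rw [← h1.1]
  exact Finset.card_le_card (Finset.filter_subset _ _)

open Classical in
theorem le_alephMax (X : Finset V) (hX : IsStarSet G μ X)
    (hm : ∀ v ∈ X, v ∈ mainVertices G μ X) : X.card ≤ alephMax G μ := by
  unfold alephMax
  refine (Finset.card_le_card hm).trans ?_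
  exact Finset.le_sup (f := fun X => (mainVertices G μ X).card) (by simpa using hX)

end Dim

end Pool.Agent.helper64.Star
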