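import Pool.Agent.helper64.Star.Defs
import Pool.Agent.helper64.Star.Checks

/-!
# The multiplicity of a main eigenvalue of a connected graph
-/

open Finset

namespace Pool.Agent.helper64.Star

variable {V : Type} [Fintype V] (G : SimpleGraph V) (μ : ℝ)

omit [Fintype V] in
/-- The set `S` induces a connected subgraph (in terms of cuts). -/
def Cn (S : Finset V) : Prop :=
  S.Nonempty ∧ ∀ T ⊆ S, T.Nonempty → T ≠ S → ∃ a ∈ T, ∃ b ∈ S, b ∉ T ∧ G.Adj a b

omit [Fintype V] in
theorem Cn.insert [DecidableEq V] {S : Finset V} (h : Cn G S) {w a : V} (hw : w ∉ S) (ha : a ∈ S)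
    (haw : G.Adj w a) : Cn G (insert w S) := by
  refine ⟨⟨w, mem_insert_self _ _⟩, fun T hT hne hT' => ?_⟩
  have hsub : T.erase w ⊆ S := fun v hv => by
    have h1 := Finset.mem_of_mem_erase hv
    have h2 := Finset.ne_of_mem_erase hv
    exact (Finset.mem_insert.1 (hT h1)).resolve_left h2
  by_cases h1 : (T.erase w).Nonempty
  · by_cases h2 : T.erase w = S
    · have hwT : w ∉ T := fun hwT => hT' (by rw [← h2, Finset.insert_erase hwT])
      refine ⟨a, ?_, w, mem_insert_self _ _, hwT, haw.symm⟩
      rw [← h2] at ha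
      exact Finset.mem_of_mem_erase ha
    · obtain ⟨a', ha', b, hb, hbT, hab⟩ := h.2 (T.erase w) hsub h1 h2
      refine ⟨a', Finset.mem_of_mem_erase ha', b, mem_insert_of_mem hb, fun hbT' => hbT ?_, hab⟩
      exact Finset.mem_erase.2 ⟨fun hbw => hw (hbw ▸ hb), hbT'⟩
  · rw [Finset.not_nonempty_iff_eq_empty] at h1
    have h2 : ∀ v ∈ T, v = w := fun v hv => by
      by_contra hvw
      have : v ∈ T.erase w := Finset.mem_erase.2 ⟨hvw, hv⟩
      rw [h1] at this
      exact absurd this (Finset.notMem_empty _)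
    obtain ⟨v, hv⟩ := hne
    refine ⟨w, ?_, a, mem_insert_of_mem ha, fun haT => ?_, haw⟩
    · rw [← h2 v hv]; exact hv
    · exact hw (h2 a haT ▸ ha)

/-- The vector with entry `1` at `w` which is zero off `S ∪ {w}` and killed by `A - μ` on `S`. -/
theorem exists_ext [DecidableEq V] {S : Finset V} (h : Nonsing G μ S) {w : V} (hw : w ∉ S) :
    ∃ x : V → ℝ, x w = 1 ∧ (∀ v, v ∉ insert w S → x v = 0) ∧ ∀ v ∈ S, res G μ x v = 0 := by
  let e : (S → ℝ) →ₗ[ℝ] (V → ℝ) :=
    { toFun := fun y v => if hv : v ∈ S then y ⟨v, hv⟩ else 0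
      map_add' := fun x y => by funext v; by_cases hv : v ∈ S <;> simp [hv]
      map_smul' := fun c x => by funext v; by_cases hv : v ∈ S <;> simp [hv] }
  have he : ∀ y v, v ∉ S → e y v = 0 := fun y v hv => by simp [e, hv]
  let L : (S → ℝ) →ₗ[ℝ] (S → ℝ) :=
    { toFun := fun y v => res G μ (e y) v
      map_add' := fun x y => by funext v; simp only [map_add, res_add, Pi.add_apply]
      map_smul' := fun c x => by
        funext v; simp only [map_smul, res_smul, Pi.smul_apply, smul_eq_mul, RingHom.id_apply] }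
  have hL : Function.Injective L := by
    rw [injective_iff_map_eq_zero]
    intro y hy
    have h1 : e y = 0 := h _ (he y) fun v hv => congrFun hy ⟨v, hv⟩
    funext v
    have h2 := congrFun h1 v
    simpa [e] using h2
  obtain ⟨y, hy⟩ := (LinearMap.injective_iff_surjective.1 hL)
    (fun v => - res G μ (Pi.single w 1) v)
  refine ⟨e y + Pi.single w 1, ?_, fun v hv => ?_, fun v hv => ?_⟩
  · rw [Pi.add_apply, he y w hw, Pi.single_eq_same, zero_add]
  · have h1 : v ∉ S := fun h' => hv (mem_insert_of_mem h')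
    have h2 : v ≠ w := fun h' => hv (h' ▸ mem_insert_self _ _)
    rw [Pi.add_apply, he y v h1, Pi.single_eq_of_ne h2, zero_add]
  · rw [res_add]
    have h1 := congrFun hy ⟨v, hv⟩
    have h2 : res G μ (e y) v = - res G μ (Pi.single w 1) v := h1
    rw [h2]; ring

/-- A vector zero off `S ∪ {w}` and killed on `S` is a multiple of the basic one. -/
theorem eq_smul [DecidableEq V] {S : Finset V} (h : Nonsing G μ S) {w : V} {x y : V → ℝ}
    (hx1 : x w = 1) (hx : ∀ v, v ∉ insert w S → x v = 0) (hx0 : ∀ v ∈ S, res G μ x v = 0)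
    (hy : ∀ v, v ∉ insert w S → y v = 0) (hy0 : ∀ v ∈ S, res G μ y v = 0) : y = y w • x := by
  have h1 : y - y w • x = 0 := by
    refine h _ (fun v hv => ?_) fun v hv => ?_
    · by_cases hvw : v = w
      · subst hvw; simp [hx1]
      · have h2 : v ∉ insert w S := fun h' => (Finset.mem_insert.1 h').elim hvw hv
        simp [hx v h2, hy v h2]
    · rw [res_sub, res_smul, hx0 v hv, hy0 v hv]; ring
  exact sub_eq_zero.1 h1

variable {G μ}

theorem claimA [DecidableEq V] {S : Finset V} (hC : Cn G S) (h : Nonsing G μ S)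
    (hmax : ∀ T, Cn G T → Nonsing G μ T → T.card ≤ S.card) {w : V} (hw : w ∉ S)
    (hadj : ∃ a ∈ S, G.Adj w a) {x : V → ℝ}
    (hx1 : x w = 1) (hx : ∀ v, v ∉ insert w S → x v = 0) (hx0 : ∀ v ∈ S, res G μ x v = 0) :
    res G μ x w = 0 := by
  by_contra hne
  obtain ⟨a, ha, haw⟩ := hadj
  have h1 := hmax (insert w S) (hC.insert G hw ha haw) (fun y hy hy0 => by
    have h2 := eq_smul G μ h hx1 hx hx0 hy (fun v hv => hy0 v (mem_insert_of_mem hv))
    have h3 := hy0 w (mem_insert_self _ _)
    rw [h2, res_smul] at h3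
    have h4 : y w = 0 := (mul_eq_zero.1 h3).resolve_right hne
    rw [h2, h4, zero_smul])
  rw [Finset.card_insert_of_notMem hw] at h1
  omega

theorem claimB [DecidableEq V] {S : Finset V} (hC : Cn G S) (h : Nonsing G μ S)
    (hmax : ∀ T, Cn G T → Nonsing G μ T → T.card ≤ S.card) {w : V} (hw : w ∉ S)
    (hadj : ∃ a ∈ S, G.Adj w a) {x : V → ℝ}
    (hx1 : x w = 1) (hx : ∀ v, v ∉ insert w S → x v = 0) (hx0 : ∀ v ∈ S, res G μ x v = 0)
    {z : V} (hz : z ∉ insert w S) : res G μ x z = 0 := by
  have hA := claimA hC h hmax hw hadj hx1 hx hx0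
  by_contra hne
  obtain ⟨a, ha, haw⟩ := hadj
  have hCw := hC.insert G hw ha haw
  have hzn : ∃ b ∈ insert w S, G.Adj z b := by
    by_contra hcon
    push Not at hcon
    apply hne
    unfold res
    rw [hx z hz, mul_zero, sub_zero]
    refine Finset.sum_eq_zero fun b _ => ?_
    by_cases hb : b ∈ insert w S
    · rw [adj_of_not G (hcon b hb), zero_mul]
    · rw [hx b hb, mul_zero]
  obtain ⟨b, hb, hzb⟩ := hzn
  have h1 := hmax (insert z (insert w S)) (hCw.insert G hz hb hzb) (fun y hy hy0 => by
    have hsy := res_symm G μ y x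
    have hl : ∑ v, res G μ y v * x v = 0 := Finset.sum_eq_zero fun v _ => by
      by_cases hv : v ∈ insert w S
      · rw [hy0 v (mem_insert_of_mem hv), zero_mul]
      · rw [hx v hv, mul_zero]
    have hr : ∑ v, y v * res G μ x v = y z * res G μ x z := by
      refine Finset.sum_eq_single z (fun v _ hvz => ?_) (fun h' => absurd (mem_univ _) h')
      by_cases hv : v ∈ insert z (insert w S)
      · rcases Finset.mem_insert.1 hv with rfl | hv'
        · exact absurd rfl hvz
        · rcases Finset.mem_insert.1 hv' with rfl | hv''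
          · rw [hA, mul_zero]
          · rw [hx0 v hv'', mul_zero]
      · rw [hy v hv, zero_mul]
    rw [hl, hr] at hsy
    have hyz : y z = 0 := (mul_eq_zero.1 hsy.symm).resolve_right hne
    have hy' : ∀ v, v ∉ insert w S → y v = 0 := fun v hv => by
      by_cases hvz : v = z
      · rw [hvz, hyz]
      · exact hy v fun h' => (Finset.mem_insert.1 h').elim hvz hv
    have h2 := eq_smul G μ h hx1 hx hx0 hy'
      (fun v hv => hy0 v (mem_insert_of_mem (mem_insert_of_mem hv)))
    have h3 := hy0 z (mem_insert_self _ _)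
    rw [h2, res_smul] at h3
    have h4 : y w = 0 := (mul_eq_zero.1 h3).resolve_right hne
    rw [h2, h4, zero_smul])
  rw [Finset.card_insert_of_notMem hz, Finset.card_insert_of_notMem hw] at h1
  omega

theorem claimC [DecidableEq V] {S : Finset V} (hG : G.Connected) (hC : Cn G S)
    (h : Nonsing G μ S) (hmax : ∀ T, Cn G T → Nonsing G μ T → T.card ≤ S.card) {z : V}
    (hz : z ∉ S) : ∃ a ∈ S, G.Adj z a := by
  by_contra hcon
  obtain ⟨s, hs⟩ := hC.1
  obtain ⟨p⟩ := hG.preconnected s z
  obtain ⟨d, -, hd1, hd2⟩ := p.exists_boundary_dart {v | v ∈ S ∨ ∃ a ∈ S, G.Adj v a}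
    (Or.inl hs) (fun h' => h'.elim hz hcon)
  simp only [Set.mem_ofPred_eq] at hd1 hd2
  push Not at hd2
  have hw : d.fst ∉ S := fun h' => hd2.2 _ h' d.adj.symm
  have hadj := hd1.resolve_left hw
  obtain ⟨x, hx1, hx, hx0⟩ := exists_ext G μ h hw
  have hne : d.snd ≠ d.fst := fun h' => G.loopless.irrefl d.fst (by have := d.adj; rwa [h'] at this)
  have hz' : d.snd ∉ insert d.fst S := fun h' => (Finset.mem_insert.1 h').elim hne hd2.1
  have hB := claimB hC h hmax hw hadj hx1 hx hx0 hz'
  have h1 : res G μ x d.snd = 1 := by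
    unfold res
    rw [hx _ hz', mul_zero, sub_zero, Finset.sum_eq_single d.fst]
    · rw [hx1, mul_one, adj_of G d.adj.symm]
    · intro b _ hb
      by_cases hbS : b ∈ S
      · rw [adj_of_not G (hd2.2 b hbS), zero_mul]
      · rw [hx b (fun h' => (Finset.mem_insert.1 h').elim hb hbS), mul_zero]
    · intro h'; exact absurd (mem_univ _) h'
  rw [h1] at hB
  exact one_ne_zero hB

theorem exists_max [DecidableEq V] (hG : G.Connected) (h2 : 2 ≤ Fintype.card V) :
    ∃ S : Finset V, Cn G S ∧ Nonsing G μ S ∧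
      ∀ T, Cn G T → Nonsing G μ T → T.card ≤ S.card := by
  classical
  have hstart : ∃ S : Finset V, Cn G S ∧ Nonsing G μ S := by
    obtain ⟨v⟩ := hG.nonempty
    have hsingle : Cn G {v} := by
      refine ⟨singleton_nonempty v, fun T hT hne hT' => absurd ?_ hT'⟩
      exact (Finset.Nonempty.subset_singleton_iff hne).1 hT
    by_cases hμ : μ = 0
    · -- an edge
      have : Nontrivial V := Fintype.one_lt_card_iff_nontrivial.1 (by omega)
      obtain ⟨w, hvw⟩ : ∃ w, G.Adj v w := by
        have := hG.preconnected.exists_adj_of_nontrivial v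
        exact this
      have hne : w ≠ v := hvw.ne'
      have hwv : w ∉ ({v} : Finset V) := by simpa using hne
      refine ⟨insert w {v}, hsingle.insert G hwv (mem_singleton_self v) hvw.symm, ?_⟩
      intro x hx hx0
      have hsum : ∀ u, ∑ b, adj G u b * x b = adj G u w * x w + adj G u v * x v := by
        intro u
        rw [← Finset.sum_subset (Finset.subset_univ (insert w {v})), Finset.sum_insert hwv,
          Finset.sum_singleton]
        intro b _ hb
        rw [hx b hb, mul_zero]
      have h1 := hx0 w (mem_insert_self _ _)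
      have h3 := hx0 v (mem_insert_of_mem (mem_singleton_self v))
      unfold res at h1 h3
      rw [hsum, hμ, adj_self, adj_of G hvw.symm] at h1
      rw [hsum, hμ, adj_self, adj_of G hvw] at h3
      funext u
      by_cases hu : u ∈ insert w ({v} : Finset V)
      · rcases Finset.mem_insert.1 hu with rfl | hu
        · simpa using h3
        · rw [Finset.mem_singleton.1 hu]; simpa using h1
      · exact hx u hu
    · refine ⟨{v}, hsingle, fun x hx hx0 => ?_⟩
      have h1 := hx0 v (mem_singleton_self v)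
      unfold res at h1
      rw [Finset.sum_eq_single v] at h1
      · rw [adj_self, zero_mul, zero_sub, neg_eq_zero] at h1
        have h3 := (mul_eq_zero.1 h1).resolve_left hμ
        funext u
        by_cases hu : u = v
        · rw [hu, h3]; rfl
        · exact hx u (by simpa using hu)
      · intro b _ hb
        rw [hx b (by simpa using hb), mul_zero]
      · intro h'; exact absurd (mem_univ _) h'
  obtain ⟨S0, hS0⟩ := hstart
  obtain ⟨S, hS, hmax⟩ := Finset.exists_max_image
    (univ.filter fun S : Finset V => Cn G S ∧ Nonsing G μ S) Finset.card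
    ⟨S0, by simpa using hS0⟩
  simp only [Finset.mem_filter, Finset.mem_univ, true_and] at hS hmax
  exact ⟨S, hS.1, hS.2, fun T h1 h3 => hmax T ⟨h1, h3⟩⟩

/-- A sum of a function supported on `{a, w}`. -/
theorem sum_two [DecidableEq V] {a w : V} (h1 : w ≠ a) (f : V → ℝ)
    (hf : ∀ v, v ∉ insert w ({a} : Finset V) → f v = 0) :
    ∑ v, f v = f a + f w := by
  rw [← Finset.sum_subset (Finset.subset_univ (insert w ({a} : Finset V)))
    (fun v _ hv => hf v hv), Finset.sum_insert (by simpa using h1), Finset.sum_singleton]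
  ring

theorem sum_three [DecidableEq V] {a b w : V} (h1 : w ≠ a) (h2 : w ≠ b) (h3 : a ≠ b) (f : V → ℝ)
    (hf : ∀ v, v ∉ insert w ({a, b} : Finset V) → f v = 0) :
    ∑ v, f v = f a + f b + f w := by
  rw [← Finset.sum_subset (Finset.subset_univ (insert w ({a, b} : Finset V)))
    (fun v _ hv => hf v hv), Finset.sum_insert (by simp [h1, h2]), Finset.sum_pair h3]
  ring

theorem sum_four [DecidableEq V] {a b c w : V} (h1 : w ≠ a) (h2 : w ≠ b) (h3 : w ≠ c)
    (h4 : a ≠ b) (h5 : a ≠ c) (h6 : b ≠ c) (f : V → ℝ)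
    (hf : ∀ v, v ∉ insert w ({a, b, c} : Finset V) → f v = 0) :
    ∑ v, f v = f a + f b + f c + f w := by
  rw [← Finset.sum_subset (Finset.subset_univ (insert w ({a, b, c} : Finset V)))
    (fun v _ hv => hf v hv), Finset.sum_insert (by simp [h1, h2, h3]),
    Finset.sum_insert (by simp [h4, h5]), Finset.sum_pair h6]
  ring

theorem sum_ne {b1 b2 b3 : ℝ} (h1 : b1 = 0 ∨ b1 = 1) (h2 : b2 = 0 ∨ b2 = 1)
    (h3 : b3 = 0 ∨ b3 = 1) (h : b1 = 1 ∨ b2 = 1 ∨ b3 = 1) : b1 + b2 + b3 ≠ 0 := by
  rcases h1 with rfl | rfl <;> rcases h2 with rfl | rfl <;> rcases h3 with rfl | rfl <;>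
    revert h <;> norm_num

/-- The case of three vertices, given as a path. -/
theorem sum_zero3 [DecidableEq V] {s1 s2 s3 : V} (h12 : s1 ≠ s2) (h13 : s1 ≠ s3) (h23 : s2 ≠ s3)
    (ha12 : G.Adj s1 s2) (ha23 : G.Adj s2 s3) (h : Nonsing G μ {s1, s2, s3})
    {w z : V} (hw : w ∉ ({s1, s2, s3} : Finset V)) (hz : z ∉ ({s1, s2, s3} : Finset V))
    (hzw : z ≠ w)
    (hwa : ∃ a ∈ ({s1, s2, s3} : Finset V), G.Adj w a)
    (hza : ∃ a ∈ ({s1, s2, s3} : Finset V), G.Adj z a) {x y : V → ℝ}
    (hx1 : x w = 1) (hx : ∀ v, v ∉ insert w ({s1, s2, s3} : Finset V) → x v = 0)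
    (hxe : ∀ v, res G μ x v = 0)
    (hy1 : y z = 1) (hy : ∀ v, v ∉ insert z ({s1, s2, s3} : Finset V) → y v = 0)
    (hye : ∀ v, res G μ y v = 0) :
    ∑ v, x v = 0 := by
  have hxz : x z = 0 := hx z fun h' => (Finset.mem_insert.1 h').elim hzw hz
  have hw1 : w ≠ s1 := fun h' => hw (by simp [h'])
  have hw2 : w ≠ s2 := fun h' => hw (by simp [h'])
  have hw3 : w ≠ s3 := fun h' => hw (by simp [h'])
  have hz1 : z ≠ s1 := fun h' => hz (by simp [h'])
  have hz2 : z ≠ s2 := fun h' => hz (by simp [h'])
  have hz3 : z ≠ s3 := fun h' => hz (by simp [h'])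
  have hS : ∀ u, ∑ b, adj G u b * x b = adj G u s1 * x s1 + adj G u s2 * x s2 +
      adj G u s3 * x s3 + adj G u w * x w := fun u =>
    sum_four hw1 hw2 hw3 h12 h13 h23 (fun b => adj G u b * x b) fun v hv => by
      simp only [hx v hv, mul_zero]
  have hT : ∀ u, ∑ b, adj G u b * y b = adj G u s1 * y s1 + adj G u s2 * y s2 +
      adj G u s3 * y s3 + adj G u z * y z := fun u =>
    sum_four hz1 hz2 hz3 h12 h13 h23 (fun b => adj G u b * y b) fun v hv => by
      simp only [hy v hv, mul_zero]
  have e1 := hxe s1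
  have e2 := hxe s2
  have e3 := hxe s3
  have e4 := hxe w
  have e5 := hxe z
  have f1 := hye s1
  have f2 := hye s2
  have f3 := hye s3
  have f4 := hye z
  unfold res at e1 e2 e3 e4 e5 f1 f2 f3 f4
  rw [hS, hx1] at e1 e2 e3 e4 e5
  rw [hT, hy1] at f1 f2 f3 f4
  rw [adj_self, adj_of G ha12, adj_comm G s1 w] at e1
  rw [adj_self, adj_of G ha12.symm, adj_of G ha23, adj_comm G s2 w] at e2
  rw [adj_self, adj_of G ha23.symm, adj_comm G s3 w, adj_comm G s3 s1] at e3
  rw [adj_self] at e4
  rw [hxz] at e5
  rw [adj_self, adj_of G ha12, adj_comm G s1 z] at f1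
  rw [adj_self, adj_of G ha12.symm, adj_of G ha23, adj_comm G s2 z] at f2
  rw [adj_self, adj_of G ha23.symm, adj_comm G s3 z, adj_comm G s3 s1] at f3
  rw [adj_self] at f4
  rw [sum_four hw1 hw2 hw3 h12 h13 h23 x hx, hx1]
  refine check3 (adj G s1 s3) (adj G w s1) (adj G w s2) (adj G w s3) (adj G z s1) (adj G z s2)
    (adj G z s3) (adj G z w) μ (x s1) (x s2) (x s3)
    (y s1) (y s2) (y s3) (adj_01 _ _ _) (adj_01 _ _ _) (adj_01 _ _ _) (adj_01 _ _ _)
    (adj_01 _ _ _) (adj_01 _ _ _) (adj_01 _ _ _) (adj_01 _ _ _)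
    ?_ ?_ ?_ (by linarith) (by linarith) (by linarith) (by linarith) (by linarith)
    (by linarith) (by linarith) (by linarith) (by linarith)
  · obtain ⟨a, ha, hwa⟩ := hwa
    refine sum_ne (adj_01 G w s1) (adj_01 G w s2) (adj_01 G w s3) ?_
    simp only [Finset.mem_insert, Finset.mem_singleton] at ha
    rcases ha with rfl | rfl | rfl
    · exact Or.inl (adj_of G hwa)
    · exact Or.inr (Or.inl (adj_of G hwa))
    · exact Or.inr (Or.inr (adj_of G hwa))
  · obtain ⟨a, ha, hza⟩ := hza
    refine sum_ne (adj_01 G z s1) (adj_01 G z s2) (adj_01 G z s3) ?_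
    simp only [Finset.mem_insert, Finset.mem_singleton] at ha
    rcases ha with rfl | rfl | rfl
    · exact Or.inl (adj_of G hza)
    · exact Or.inr (Or.inl (adj_of G hza))
    · exact Or.inr (Or.inr (adj_of G hza))
  · intro hdet
    -- kernel vectors
    have key : ∀ p q r : ℝ, q + adj G s1 s3 * r - μ * p = 0 → p + r - μ * q = 0 →
        adj G s1 s3 * p + q - μ * r = 0 → p = 0 := by
      intro p q r k1 k2 k3
      have hker := h (fun v => if v = s1 then p else if v = s2 then q else if v = s3 then r else 0)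
        (fun v hv => by
          simp only [Finset.mem_insert, Finset.mem_singleton, not_or] at hv
          simp [hv.1, hv.2.1, hv.2.2]) (fun v hv => by
        have hR : ∀ u, ∑ b, adj G u b *
            (if b = s1 then p else if b = s2 then q else if b = s3 then r else 0) =
            adj G u s2 * q + adj G u s3 * r + adj G u s1 * p := fun u => by
          have h0 := sum_three h12 h13 h23
            (fun b => adj G u b *
              (if b = s1 then p else if b = s2 then q else if b = s3 then r else 0))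
            (fun v hv => by
              simp only [Finset.mem_insert, Finset.mem_singleton, not_or] at hv
              simp [hv.1, hv.2.1, hv.2.2])
          rw [h0]; simp [h12.symm, h13.symm, h23.symm]
        unfold res
        rw [hR]
        simp only [Finset.mem_insert, Finset.mem_singleton] at hv
        rcases hv with rfl | rfl | rfl
        · rw [adj_self, adj_of G ha12]; simp only [if_true]; linarith
        · rw [adj_self, adj_of G ha12.symm, adj_of G ha23]
          simp only [h12.symm, if_true, if_false]; linarith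
        · rw [adj_self, adj_of G ha23.symm, adj_comm G v s1]
          simp only [h13.symm, h23.symm, if_true, if_false]; linarith)
      have := congrFun hker s1
      simpa using this
    rcases adj_01 G s1 s3 with hd | hd
    · rw [hd] at hdet key
      have h1 : μ * (μ ^ 2 - 2) = 0 := by linarith
      rcases mul_eq_zero.1 h1 with h0 | h0
      · have := key 1 0 (-1) (by rw [h0]; ring) (by ring) (by rw [h0]; ring)
        norm_num at this
      · have := key 1 μ 1 (by ring) (by linarith) (by ring)
        norm_num at this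
    · rw [hd] at hdet key
      have h1 : (μ + 1) ^ 2 * (μ - 2) = 0 := by linarith
      rcases mul_eq_zero.1 h1 with h0 | h0
      · have h0' : μ = -1 := by
          have := pow_eq_zero_iff (two_ne_zero) |>.1 h0
          linarith
        have := key 1 (-1) 0 (by rw [h0']; ring) (by rw [h0']; ring) (by ring)
        norm_num at this
      · have h0' : μ = 2 := by linarith
        have := key 1 1 1 (by rw [h0']; ring) (by rw [h0']; ring) (by rw [h0']; ring)
        norm_num at this

/-- The eigenvectors given by a small maximal set have entries summing to zero. -/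
theorem sum_zero [DecidableEq V] {S : Finset V} (hC : Cn G S) (h : Nonsing G μ S)
    (hcard : S.card ≤ 3) {w z : V} (hw : w ∉ S) (hz : z ∉ S) (hzw : z ≠ w)
    (hwa : ∃ a ∈ S, G.Adj w a) (hza : ∃ a ∈ S, G.Adj z a) {x y : V → ℝ}
    (hx1 : x w = 1) (hx : ∀ v, v ∉ insert w S → x v = 0) (hxe : ∀ v, res G μ x v = 0)
    (hy1 : y z = 1) (hy : ∀ v, v ∉ insert z S → y v = 0) (hye : ∀ v, res G μ y v = 0) :
    ∑ v, x v = 0 := by
  have hpos := hC.1.card_pos
  have hxz : x z = 0 := hx z fun h' => (Finset.mem_insert.1 h').elim hzw hz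
  have hc3 : S.card = 1 ∨ S.card = 2 ∨ S.card = 3 := by omega
  rcases hc3 with hc | hc | hc
  · obtain ⟨s, rfl⟩ := Finset.card_eq_one.1 hc
    have hws : w ≠ s := fun h' => hw (by simp [h'])
    obtain ⟨a, ha, hwa⟩ := hwa
    rw [Finset.mem_singleton] at ha; subst ha
    obtain ⟨a', ha', hza⟩ := hza
    rw [Finset.mem_singleton] at ha'; subst ha'
    have hS : ∀ u, ∑ b, adj G u b * x b = adj G u a' * x a' + adj G u w * x w := fun u =>
      sum_two hws (fun b => adj G u b * x b) fun v hv => by
        simp only [hx v hv, mul_zero]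
    have e1 := hxe a'
    have e2 := hxe z
    unfold res at e1 e2
    rw [hS, adj_self, adj_of G hwa.symm, hx1] at e1
    rw [hS, adj_of G hza, hx1, hxz] at e2
    rw [sum_two hws x hx, hx1]
    rcases adj_01 G z w with ha | ha
    · rw [ha] at e2
      have : x a' = 0 := by linarith
      rw [this] at e1; norm_num at e1
    · rw [ha] at e2
      linarith
  · obtain ⟨s1, s2, h12, rfl⟩ := Finset.card_eq_two.1 hc
    have hw1 : w ≠ s1 := fun h' => hw (by simp [h'])
    have hw2 : w ≠ s2 := fun h' => hw (by simp [h'])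
    have hz1 : z ≠ s1 := fun h' => hz (by simp [h'])
    have hz2 : z ≠ s2 := fun h' => hz (by simp [h'])
    have hadj : G.Adj s1 s2 := by
      obtain ⟨a, ha, b, hb, hba, hab⟩ := hC.2 {s1} (by simp) (by simp)
        (fun h' => h12 (by
          have : s2 ∈ ({s1} : Finset V) := by rw [h']; simp
          exact (Finset.mem_singleton.1 this).symm))
      rw [Finset.mem_singleton] at ha hba
      subst ha
      rcases Finset.mem_insert.1 hb with rfl | hb
      · exact absurd rfl hba
      · rw [Finset.mem_singleton] at hb; subst hb; exact hab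
    have hS : ∀ u, ∑ b, adj G u b * x b = adj G u s1 * x s1 + adj G u s2 * x s2 +
        adj G u w * x w := fun u =>
      sum_three hw1 hw2 h12 (fun b => adj G u b * x b) fun v hv => by simp only [hx v hv, mul_zero]
    have hT : ∀ u, ∑ b, adj G u b * y b = adj G u s1 * y s1 + adj G u s2 * y s2 +
        adj G u z * y z := fun u =>
      sum_three hz1 hz2 h12 (fun b => adj G u b * y b) fun v hv => by simp only [hy v hv, mul_zero]
    have e1 := hxe s1
    have e2 := hxe s2
    have e4 := hxe w
    have e5 := hxe z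
    have f1 := hye s1
    have f2 := hye s2
    have f4 := hye z
    unfold res at e1 e2 e4 e5 f1 f2 f4
    rw [hS, hx1] at e1 e2 e4 e5
    rw [hT, hy1] at f1 f2 f4
    rw [adj_self, adj_of G hadj, adj_comm G s1 w] at e1
    rw [adj_self, adj_of G hadj.symm, adj_comm G s2 w] at e2
    rw [adj_self] at e4
    rw [hxz] at e5
    rw [adj_self, adj_of G hadj, adj_comm G s1 z] at f1
    rw [adj_self, adj_of G hadj.symm, adj_comm G s2 z] at f2
    rw [adj_self] at f4
    rw [sum_three hw1 hw2 h12 x hx, hx1]
    refine check2 (adj G w s1) (adj G w s2) (adj G z s1) (adj G z s2) (adj G z w) μ (x s1) (x s2)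
      (y s1) (y s2) (adj_01 _ _ _) (adj_01 _ _ _) (adj_01 _ _ _) (adj_01 _ _ _) (adj_01 _ _ _)
      ?_ ?_ ?_ (by linarith) (by linarith) (by linarith) (by linarith) (by linarith)
      (by linarith) (by linarith)
    · obtain ⟨a, ha, hwa⟩ := hwa
      have h0 := sum_ne (adj_01 G w s1) (adj_01 G w s2) (Or.inl (rfl : (0 : ℝ) = 0)) (by
        simp only [Finset.mem_insert, Finset.mem_singleton] at ha
        rcases ha with rfl | rfl
        · exact Or.inl (adj_of G hwa)
        · exact Or.inr (Or.inl (adj_of G hwa)))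
      simpa using h0
    · obtain ⟨a, ha, hza⟩ := hza
      have h0 := sum_ne (adj_01 G z s1) (adj_01 G z s2) (Or.inl (rfl : (0 : ℝ) = 0)) (by
        simp only [Finset.mem_insert, Finset.mem_singleton] at ha
        rcases ha with rfl | rfl
        · exact Or.inl (adj_of G hza)
        · exact Or.inr (Or.inl (adj_of G hza)))
      simpa using h0
    · intro hdet
      -- the vector `(1, μ)` is in the kernel
      have hker := h (fun v => if v = s1 then 1 else if v = s2 then μ else 0) (fun v hv => by
        simp only [Finset.mem_insert, Finset.mem_singleton, not_or] at hv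
        simp [hv.1, hv.2]) (fun v hv => by
        have hR : ∀ u, ∑ b, adj G u b * (if b = s1 then 1 else if b = s2 then μ else 0) =
            adj G u s1 * 1 + adj G u s2 * μ := fun u => by
          have h0 := sum_two h12.symm
            (fun b => adj G u b * (if b = s1 then 1 else if b = s2 then μ else 0))
            (fun v hv => by
              simp only [Finset.mem_insert, Finset.mem_singleton, not_or] at hv
              simp [hv.1, hv.2])
          rw [h0]; simp [h12.symm]
        unfold res
        rw [hR]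
        simp only [Finset.mem_insert, Finset.mem_singleton] at hv
        rcases hv with rfl | rfl
        · rw [adj_self, adj_of G hadj]; simp
        · rw [adj_self, adj_of G hadj.symm]; simp only [h12.symm, if_true, if_false]; linarith)
      have := congrFun hker s1
      simp at this
  · obtain ⟨a, b, c, hab, hac, hbc, rfl⟩ := Finset.card_eq_three.1 hc
    have hcut : ∀ u ∈ ({a, b, c} : Finset V), ∃ v ∈ ({a, b, c} : Finset V), v ≠ u ∧ G.Adj u v := by
      intro u hu
      obtain ⟨a', ha', b', hb', hba, hab'⟩ := hC.2 {u} (by simpa using hu) (by simp)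
        (fun h' => by rw [← h'] at hc; simp at hc)
      rw [Finset.mem_singleton] at ha' hba
      subst ha'
      exact ⟨b', hb', hba, hab'⟩
    have e1 : ({a, b, c} : Finset V) = {b, a, c} := by
      ext v; simp only [Finset.mem_insert, Finset.mem_singleton]; tauto
    have e2 : ({a, b, c} : Finset V) = {a, c, b} := by
      ext v; simp only [Finset.mem_insert, Finset.mem_singleton]; tauto
    have hcases : (G.Adj a b ∧ G.Adj b c) ∨ (G.Adj b a ∧ G.Adj a c) ∨ (G.Adj a c ∧ G.Adj c b) := by
      obtain ⟨u, hu, hua, hu'⟩ := hcut a (by simp)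
      obtain ⟨v, hv, hvb, hv'⟩ := hcut b (by simp)
      obtain ⟨t, ht, htc, ht'⟩ := hcut c (by simp)
      simp only [Finset.mem_insert, Finset.mem_singleton] at hu hv ht
      rcases hu with rfl | rfl | rfl
      · exact absurd rfl hua
      · rcases ht with rfl | rfl | rfl
        · exact Or.inr (Or.inl ⟨hu'.symm, ht'.symm⟩)
        · exact Or.inl ⟨hu', ht'.symm⟩
        · exact absurd rfl htc
      · rcases hv with rfl | rfl | rfl
        · exact Or.inr (Or.inl ⟨hv', hu'⟩)
        · exact absurd rfl hvb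
        · exact Or.inr (Or.inr ⟨hu', hv'.symm⟩)
    rcases hcases with ⟨h1, h2⟩ | ⟨h1, h2⟩ | ⟨h1, h2⟩
    · exact sum_zero3 hab hac hbc h1 h2 h hw hz hzw hwa hza hx1 hx hxe hy1 hy hye
    · rw [e1] at h hw hz hwa hza hx hy
      exact sum_zero3 hab.symm hbc hac h1 h2 h hw hz hzw hwa hza hx1 hx hxe hy1 hy hye
    · rw [e2] at h hw hz hwa hza hx hy
      exact sum_zero3 hac hab hbc.symm h1 h2 h hw hz hzw hwa hza hx1 hx hxe hy1 hy hye

/-- **The multiplicity of a main eigenvalue.**  In a connected graph with `n` vertices a main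
eigenvalue has multiplicity one or at most `n - 4`. -/
theorem finrank_le_of_main (hG : G.Connected) (hm : IsMain G μ) :
    Module.finrank ℝ (eig G μ) ≤ max 1 (Fintype.card V - 4) := by
  classical
  by_contra hcon
  rw [not_le, max_lt_iff] at hcon
  obtain ⟨hk1, hk2⟩ := hcon
  have hle : Module.finrank ℝ (eig G μ) ≤ Fintype.card V := by
    have := Submodule.finrank_le (eig G μ)
    rwa [Module.finrank_fintype_fun_eq_card] at this
  obtain ⟨S, hC, hN, hmax⟩ := exists_max (μ := μ) hG (by omega)
  have h1 := finrank_le G μ S hN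
  have hS3 : S.card ≤ 3 := by omega
  have hex : ∀ w, w ∉ S → ∃ x : V → ℝ, x w = 1 ∧ (∀ v, v ∉ insert w S → x v = 0) ∧
      ∀ v, res G μ x v = 0 := by
    intro w hw
    obtain ⟨x, hx1, hx, hx0⟩ := exists_ext G μ hN hw
    have hadj := claimC hG hC hN hmax hw
    refine ⟨x, hx1, hx, fun v => ?_⟩
    by_cases hv : v ∈ insert w S
    · rcases Finset.mem_insert.1 hv with rfl | hv
      · exact claimA hC hN hmax hw hadj hx1 hx hx0
      · exact hx0 v hv
    · exact claimB hC hN hmax hw hadj hx1 hx hx0 hv
  choose! f hf1 hf hf0 using hex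
  have hsum : ∀ w, w ∉ S → ∑ v, f w v = 0 := by
    intro w hw
    have hcardc : 2 ≤ (Sᶜ).card := by
      rw [Finset.card_compl]; omega
    obtain ⟨z, hz, hzw⟩ := Finset.exists_mem_ne (by omega : 1 < (Sᶜ).card) w
    rw [Finset.mem_compl] at hz
    exact sum_zero hC hN hS3 hw hz hzw (claimC hG hC hN hmax hw) (claimC hG hC hN hmax hz)
      (hf1 w hw) (hf w hw) (hf0 w hw) (hf1 z hz) (hf z hz) (hf0 z hz)
  obtain ⟨x, hx, hxs⟩ := hm
  rw [mem_eig] at hx
  apply hxs
  have hxeq : x = ∑ w ∈ Sᶜ, x w • f w := by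
    rw [← sub_eq_zero]
    refine hN _ (fun v hv => ?_) (fun v _ => ?_)
    · rw [Pi.sub_apply, Finset.sum_apply, Finset.sum_eq_single v]
      · rw [Pi.smul_apply, hf1 v hv, smul_eq_mul, mul_one, sub_self]
      · intro b hb hbv
        rw [Finset.mem_compl] at hb
        rw [Pi.smul_apply, hf b hb v (fun h' => (Finset.mem_insert.1 h').elim
          (fun h'' => hbv h''.symm) hv), smul_zero]
      · intro h'
        exact absurd (Finset.mem_compl.2 hv) h'
    · rw [res_sub, hx v, zero_sub, neg_eq_zero]
      have : ∀ T : Finset V, T ⊆ Sᶜ → res G μ (∑ w ∈ T, x w • f w) v = 0 := by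
        intro T
        refine Finset.induction_on T (fun _ => ?_) (fun b T hb ih hbT => ?_)
        · rw [Finset.sum_empty, res_zero]
        · rw [Finset.sum_insert hb, res_add, res_smul, ih ((Finset.subset_insert b T).trans hbT),
            hf0 b (Finset.mem_compl.1 (hbT (Finset.mem_insert_self b T))) v]
          ring
      exact this _ (Finset.Subset.refl _)
  have h2 : ∑ v, x v = ∑ w ∈ Sᶜ, x w * ∑ v, f w v := by
    calc ∑ v, x v = ∑ v, (∑ w ∈ Sᶜ, x w • f w) v := by rw [← hxeq]
      _ = ∑ v, ∑ w ∈ Sᶜ, x w * f w v := by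
          refine Finset.sum_congr rfl fun v _ => ?_
          rw [Finset.sum_apply]; rfl
      _ = ∑ w ∈ Sᶜ, x w * ∑ v, f w v := by
          rw [Finset.sum_comm]
          refine Finset.sum_congr rfl fun w _ => ?_
          rw [Finset.mul_sum]
  rw [h2]
  refine Finset.sum_eq_zero fun w hw => ?_
  rw [hsum w (Finset.mem_compl.1 hw), mul_zero]

end Pool.Agent.helper64.Star
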